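import Pool.Agent.K3h8.GG.Stm

/-!
# Brick COS: decomposition into cosets of the stabilizer of the letter `0`
-/

set_option autoImplicit false

open Equiv (Perm swap)

namespace Pool.Agent.K3h55.GG

open Pool.Agent.K3h8.GG

theorem decomp {n : ℕ} (j : Fin (n + 1)) (τ : Perm (Fin n)) :
    Equiv.Perm.decomposeFin.symm (j, τ) = swap 0 j * up τ := by
  apply Equiv.ext
  intro x
  refine Fin.cases ?_ (fun i => ?_) x
  · rw [Equiv.Perm.decomposeFin_symm_apply_zero, Equiv.Perm.mul_apply, up_zero,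
      Equiv.swap_apply_left]
  · rw [Equiv.Perm.decomposeFin_symm_apply_succ, Equiv.Perm.mul_apply, up_succ]

theorem sum_left {n : ℕ} {M : Type*} [AddCommMonoid M] (F : Perm (Fin (n + 1)) → M) :
    ∑ σ, F σ = ∑ j : Fin (n + 1), ∑ τ : Perm (Fin n), F (swap 0 j * up τ) := by
  rw [← Equiv.Perm.decomposeFin.symm.sum_comp, Fintype.sum_prod_type]
  simp only [decomp]

theorem sum_right {n : ℕ} {M : Type*} [AddCommMonoid M] (F : Perm (Fin (n + 1)) → M) :
    ∑ σ, F σ = ∑ j : Fin (n + 1), ∑ τ : Perm (Fin n), F (up τ * swap 0 j) := by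
  rw [← Equiv.sum_comp (Equiv.inv (Perm (Fin (n + 1)))) F, sum_left]
  refine Finset.sum_congr rfl fun j _ => ?_
  rw [← Equiv.sum_comp (Equiv.inv (Perm (Fin n)))]
  refine Finset.sum_congr rfl fun τ _ => ?_
  show F (swap 0 j * up τ⁻¹)⁻¹ = _
  rw [mul_inv_rev, map_inv, inv_inv, Equiv.swap_inv]

theorem inner_zero {d n : ℕ} (c : Perm (Fin n) → ℚ) (h : op d n c = 0) :
    ∑ τ : Perm (Fin n), c τ • act d (n + 1) (up τ) = 0 := by
  apply LinearMap.ext
  intro f
  funext w
  have h1 := congrFun (LinearMap.congr_fun h (fun w' : Fin n → Fin d => f (Fin.cons (w 0) w')))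
    (Fin.tail w)
  rw [op, LinearMap.sum_apply, Finset.sum_apply] at h1
  rw [LinearMap.sum_apply, Finset.sum_apply]
  refine Eq.trans ?_ h1
  refine Finset.sum_congr rfl fun τ _ => ?_
  show c τ * f (w ∘ up τ) = c τ * f (Fin.cons (w 0) (Fin.tail w ∘ τ))
  congr 2
  funext x
  refine Fin.cases ?_ (fun i => ?_) x
  · rw [Function.comp_apply, up_zero, Fin.cons_zero]
  · rw [Function.comp_apply, up_succ, Fin.cons_succ]
    rfl

/-- COS -/
theorem t_COS : S_COS := by
  intro d n v
  constructor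
  · intro h
    rw [op, sum_left]
    refine Finset.sum_eq_zero fun j _ => ?_
    have h1 : ∑ τ : Perm (Fin n), v (swap 0 j * up τ) • act d (n + 1) (swap 0 j * up τ) =
        act d (n + 1) (swap 0 j) * ∑ τ : Perm (Fin n), v (swap 0 j * up τ) •
          act d (n + 1) (up τ) := by
      rw [Finset.mul_sum]
      refine Finset.sum_congr rfl fun τ _ => ?_
      rw [map_mul, mul_smul_comm]
    rw [h1, inner_zero _ (h (swap 0 j)), mul_zero]
  · intro h
    rw [op, sum_right]
    refine Finset.sum_eq_zero fun j _ => ?_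
    have h1 : ∑ τ : Perm (Fin n), v (up τ * swap 0 j) • act d (n + 1) (up τ * swap 0 j) =
        (∑ τ : Perm (Fin n), v (up τ * swap 0 j) • act d (n + 1) (up τ)) *
          act d (n + 1) (swap 0 j) := by
      rw [Finset.sum_mul]
      refine Finset.sum_congr rfl fun τ _ => ?_
      rw [map_mul, smul_mul_assoc]
    rw [h1, inner_zero _ (h (swap 0 j)), zero_mul]

end Pool.Agent.K3h55.GG
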